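import Pool.Agent.Q126.CG7

/-!
# MP_815355_co : sub-object preorder on weakly random cograph limits

Both questions are answered positively: `Φ_F` (for `F` = the finite cographs) contains an infinite
antichain.  The antichain consists of recursive blow-up limits `φ_G` whose blocks of letters `coK_2`
have very different lengths at different scales: the clique densities
`- log φ_G(K_m) / m` determine the number of letters `coK_2` before the `log m`-th letter `K_2` up to
a factor `2`, and a sub-object changes this number only by an additive constant.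

The definitions (`Graphon`, `patt`, `Density`, `lim`, `restr`, `IsLimit`, `SubObj`, `Q`, `P`,
`CoOn`, `cographs`, `PhiF`) are in `Pool/Agent/Q126/CG4.lean` and `Pool/Agent/Q126/CG1.lean`.
-/

set_option autoImplicit false

namespace Pool.Agent.Results.MP_815355_co.CliqueGrowth

open Q126.CG

/-- the limits of the antichain -/
noncomputable def phi (a : ℕ) : Density := lim (WG (GS (Lam a)))

theorem phi_mem (a : ℕ) : phi a ∈ PhiF := by
  have hlim : IsLimit (phi a) := ⟨_, rfl⟩
  have h1 : Q (phi a) ⊆ cographs := Q_WG _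
  have h2 : cographs ⊆ P (phi a) := by
    rintro ⟨n, H⟩ hH ψ ⟨W, f, hW, hf, h01, hpos, hψ⟩
    show 0 < ψ n H
    rw [hψ]
    exact persist H (fun b s => GS_both (Lam_mono a) b s) hH hW.symm hf h01 hpos
  have h3 : P (phi a) ⊆ Q (phi a) := P_sub_Q hlim
  exact ⟨hlim, Set.Subset.antisymm (h3.trans h1) h2, Set.Subset.antisymm h1 (h2.trans h3)⟩

theorem phi_not_sub {a b : ℕ} (hab : a ≠ b) : ¬ SubObj (phi a) (phi b) := not_sub hab.symm

theorem phi_inj : Function.Injective phi := by
  intro a b hab
  by_contra hne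
  apply phi_not_sub hne
  rw [hab]
  exact sub_refl ⟨_, rfl⟩

/-- **Q2 (and Q1): yes.**  `Φ_F`, for the class `F` of finite cographs, contains an infinite set of
pairwise incomparable limits; in particular it contains two incomparable limits. -/
theorem result :
    (∃ A : Set Density, A.Infinite ∧ A ⊆ PhiF ∧
      ∀ φ ∈ A, ∀ ψ ∈ A, φ ≠ ψ → ¬ SubObj φ ψ ∧ ¬ SubObj ψ φ) ∧
    ∃ φ ∈ PhiF, ∃ ψ ∈ PhiF, ¬ SubObj φ ψ ∧ ¬ SubObj ψ φ := by
  constructor
  · refine ⟨Set.range phi, Set.infinite_range_of_injective phi_inj, ?_, ?_⟩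
    · rintro _ ⟨a, rfl⟩
      exact phi_mem a
    · rintro _ ⟨a, rfl⟩ _ ⟨b, rfl⟩ hne
      have hab : a ≠ b := fun h => hne (by rw [h])
      exact ⟨phi_not_sub hab, phi_not_sub hab.symm⟩
  · exact ⟨phi 0, phi_mem 0, phi 1, phi_mem 1, phi_not_sub (by norm_num), phi_not_sub (by norm_num)⟩

end Pool.Agent.Results.MP_815355_co.CliqueGrowth
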